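import Mathlib

set_option autoImplicit false

/-! The local contraction property for the triple `b (1, 9/5, 71/25)` with `b = exp (-50000)`. -/

namespace Pool.Agent.H156Z.DB

theorem theta_pos {t : ℝ} (ht : 0 < t) : ∃ θ : ℝ, 0 < θ ∧ θ ≤ 1 / 100000 ∧ θ * t ^ 3 ≤ 1 / 100000 ∧
    θ * (Real.exp (100000 * t) - 1) = t := by
  have h1 : 100000 * t ≤ Real.exp (100000 * t) - 1 := by
    have := Real.add_one_le_exp (100000 * t); linarith
  have hp : 0 < Real.exp (100000 * t) - 1 := by linarith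
  have h2 : 100000 * t ^ 4 ≤ Real.exp (100000 * t) - 1 := by
    have := Real.sum_le_exp_of_nonneg (x := 100000 * t) (by linarith) 5
    simp only [Finset.sum_range_succ, Finset.sum_range_zero, Nat.factorial] at this
    norm_num at this
    have h3 : 0 ≤ t ^ 2 := by positivity
    have h4 : 0 ≤ t ^ 3 := by positivity
    have h5 : 0 ≤ t ^ 4 := by positivity
    nlinarith
  refine ⟨t / (Real.exp (100000 * t) - 1), div_pos ht hp, ?_, ?_, ?_⟩
  · rw [div_le_iff₀ hp]; linarith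
  · rw [div_mul_eq_mul_div, div_le_iff₀ hp]; nlinarith
  · exact div_mul_cancel₀ _ hp.ne'

theorem theta (s : ℝ) : ∃ θ : ℝ, 0 < θ ∧ θ ≤ 1 / 100000 ∧ θ * |s| ^ 3 ≤ 1 / 100000 ∧
    (s * Real.exp (100000 * s) - s) * (max (-s) 0 + θ) = s ^ 2 := by
  rcases lt_trichotomy s 0 with h | h | h
  · obtain ⟨θ, h1, h2, h3, h4⟩ := theta_pos (t := -s) (by linarith)
    refine ⟨θ, h1, h2, by rwa [abs_of_neg h], ?_⟩
    rw [max_eq_left (by linarith)]
    have h5 : Real.exp (100000 * s) * Real.exp (100000 * -s) = 1 := by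
      rw [← Real.exp_add]; simp
    set x := Real.exp (100000 * s)
    set y := Real.exp (100000 * -s)
    have : θ * (1 - x) = -s * x := by
      linear_combination x * h4 - θ * h5
    linear_combination (-s) * this
  · subst h
    exact ⟨1 / 100000, by norm_num, le_rfl, by norm_num, by simp⟩
  · obtain ⟨θ, h1, h2, h3, h4⟩ := theta_pos h
    refine ⟨θ, h1, h2, by rwa [abs_of_pos h], ?_⟩
    rw [max_eq_right (by linarith)]
    linear_combination s * h4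

theorem mid (α x y z : ℝ) (h0 : 0 ≤ α) (h1 : α ≤ 1) (hx : 0 < x) (hy : 0 < y) (hz : 0 < z)
    (hx1 : x ≤ 1 / 100000) (hy1 : y ≤ 1 / 100000) (hz1 : z ≤ 1 / 100000) (a c : ℝ)
    (ha : 0 ≤ a) (hc : 0 ≤ c) (hac : a * c ≤ α * (2 - α) + 5 / 100000) :
    81 / 25 * (α * (1 - α) + 10 / 100000) + a * c * (61 / 50 - 81 / 50 * α + y * (81 / 25)) ^ 2 < 1 := by
  have k1 : (61 / 50 - 81 / 50 * α + y * (81 / 25)) ^ 2 ≤ (61 / 50 - 81 / 50 * α) ^ 2 + 10 / 100000 := by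
    nlinarith
  have k2 : (61 / 50 - 81 / 50 * α) ^ 2 ≤ 3 / 2 := by nlinarith
  have k3 : 0 ≤ α * (2 - α) := by nlinarith
  have k4 : α * (2 - α) ≤ 1 := by nlinarith
  have k5 : a * c * (61 / 50 - 81 / 50 * α + y * (81 / 25)) ^ 2 ≤
      (α * (2 - α) + 5 / 100000) * ((61 / 50 - 81 / 50 * α) ^ 2 + 10 / 100000) :=
    mul_le_mul hac k1 (by positivity) (by linarith)
  have k6 : 81 / 25 * (α * (1 - α)) + α * (2 - α) * (61 / 50 - 81 / 50 * α) ^ 2 ≤ 99 / 100 := by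
    nlinarith [sq_nonneg (81 / 50 * α ^ 2 - 71 / 25 * α + 17 / 20), sq_nonneg (α - 383 / 1000)]
  nlinarith

theorem far (t x y z c k : ℝ) (ht : 0 ≤ t) (hx : 0 < x) (hy : 0 < y) (hz : 0 < z)
    (hx1 : x ≤ 1 / 100000) (hy1 : y ≤ 1 / 100000) (hz1 : z ≤ 1 / 100000)
    (hx3 : x * t ^ 3 ≤ 1 / 100000) (hy3 : y * (t + 1) ^ 3 ≤ 1 / 100000)
    (hk : k = 61 / 50 + 81 / 50 * t + y * (81 / 25)) :
    81 / 25 * (x * (t + 1 + y) + y * (t + 2 + z)) + x * (t + 2 + z) * k ^ 2 < 1 := by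
  have p1 : (t + 1) ^ 3 ≤ 4 * (1 + t ^ 3) := by nlinarith [sq_nonneg (t - 1), mul_nonneg ht (sq_nonneg (t - 1))]
  have p2 : x * (t + 1) ^ 3 ≤ 8 / 100000 := by nlinarith
  have p3 : t + 1 ≤ (t + 1) ^ 3 := by nlinarith [mul_nonneg ht ht, mul_nonneg ht (mul_nonneg ht ht)]
  have q1 : x * (t + 1 + y) ≤ 16 / 100000 := by nlinarith
  have q2 : y * (t + 2 + z) ≤ 3 / 100000 := by nlinarith
  have q3 : k ^ 2 ≤ 4 * (t + 1) ^ 2 := by
    have : 0 ≤ k := by rw [hk]; positivity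
    have : k ≤ 2 * (t + 1) := by rw [hk]; linarith
    nlinarith
  have q4 : x * (t + 2 + z) * k ^ 2 ≤ x * (3 * (t + 1)) * (4 * (t + 1) ^ 2) :=
    mul_le_mul (mul_le_mul_of_nonneg_left (by linarith) hx.le) q3 (by positivity) (by positivity)
  nlinarith

theorem Gbound (μ x y z : ℝ) (hx : 0 < x) (hy : 0 < y) (hz : 0 < z)
    (hx1 : x ≤ 1 / 100000) (hy1 : y ≤ 1 / 100000) (hz1 : z ≤ 1 / 100000)
    (hx3 : x * |μ| ^ 3 ≤ 1 / 100000) (hy3 : y * |μ + 1| ^ 3 ≤ 1 / 100000)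
    (hz3 : z * |μ + 2| ^ 3 ≤ 1 / 100000) :
    81 / 25 * ((max (-μ) 0 + x) * (μ + 1 + (max (-(μ + 1)) 0 + y)) +
      (max (-(μ + 1)) 0 + y) * (μ + 2 + (max (-(μ + 2)) 0 + z))) +
      (max (-μ) 0 + x) * (μ + 2 + (max (-(μ + 2)) 0 + z)) *
        (71 / 25 + (μ - 1) * (81 / 50) + (max (-(μ + 1)) 0 + y) * (81 / 25)) ^ 2 < 1 := by
  rcases le_total 0 μ with h0 | h0
  · rw [max_eq_right (by linarith), max_eq_right (by linarith), max_eq_right (by linarith)]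
    rw [abs_of_nonneg h0] at hx3
    rw [abs_of_nonneg (by linarith)] at hy3
    have := far μ x y z 0 _ h0 hx hy hz hx1 hy1 hz1 hx3 hy3 rfl
    convert this using 1
    ring
  rcases le_total 0 (μ + 1) with h1 | h1
  · rw [max_eq_left (by linarith), max_eq_right (by linarith), max_eq_right (by linarith)]
    have := mid (-μ) x y z (by linarith) (by linarith) hx hy hz hx1 hy1 hz1 (-μ + x)
      (μ + 2 + (0 + z)) (by linarith) (by linarith) (by nlinarith)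
    have e : (71 / 25 + (μ - 1) * (81 / 50) + (0 + y) * (81 / 25)) =
      61 / 50 - 81 / 50 * -μ + y * (81 / 25) := by ring
    rw [e]
    have : (-μ + x) * (μ + 1 + (0 + y)) + (0 + y) * (μ + 2 + (0 + z)) ≤
      -μ * (1 - -μ) + 10 / 100000 := by nlinarith
    linarith
  rcases le_total 0 (μ + 2) with h2 | h2
  · rw [max_eq_left (by linarith), max_eq_left (by linarith), max_eq_right (by linarith)]
    have := mid (μ + 2) x y z (by linarith) (by linarith) hx hy hz hx1 hy1 hz1 (-μ + x)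
      (μ + 2 + (0 + z)) (by linarith) (by linarith) (by nlinarith)
    have e : (71 / 25 + (μ - 1) * (81 / 50) + (-(μ + 1) + y) * (81 / 25)) =
      61 / 50 - 81 / 50 * (μ + 2) + y * (81 / 25) := by ring
    rw [e]
    have : (-μ + x) * (μ + 1 + (-(μ + 1) + y)) + (-(μ + 1) + y) * (μ + 2 + (0 + z)) ≤
      (μ + 2) * (1 - (μ + 2)) + 10 / 100000 := by nlinarith
    linarith
  · rw [max_eq_left (by linarith), max_eq_left (by linarith), max_eq_left (by linarith)]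
    rw [abs_of_nonpos h2] at hz3
    rw [abs_of_nonpos h1] at hy3
    set t := -(μ + 2) with ht
    have hμ : μ = -t - 2 := by rw [ht]; ring
    have ht0 : 0 ≤ t := by linarith
    have hy3' : y * (t + 1) ^ 3 ≤ 1 / 100000 := by
      convert hy3 using 3
      rw [hμ]; ring
    have := far t z y x 0 _ ht0 hz hy hx hz1 hy1 hx1 hz3 hy3' rfl
    rw [hμ]
    convert this using 1
    ring

theorem quad (s0 s1 s2 w0 w1 w2 a b c k β y1 y2 y3 : ℝ) (ha : 0 < a) (hb : 0 < b) (hc : 0 < c)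
    (h0 : w0 * a = s0 ^ 2) (h1 : w1 * b = s1 ^ 2) (h2 : w2 * c = s2 ^ 2)
    (hb' : 0 < s1 + b) (hC : 0 < s2 + c)
    (hG : β ^ 2 * (a * (s1 + b) + b * (s2 + c)) + a * (s2 + c) * (k + b * β ^ 2) ^ 2 < 1) :
    s0 * y1 ^ 2 + s1 * (s0 * β * y1 + y2) ^ 2 + s2 * (s0 * k * y1 + s1 * β * y2 + y3) ^ 2 ≤
      (w0 + s0) * y1 ^ 2 + (w1 + s1) * y2 ^ 2 + (w2 + s2) * y3 ^ 2 := by
  set C := s2 + c with hCdef
  set Y := s0 * y1 with hY
  set Z := s1 * y2 with hZ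
  set V := s2 * y3 with hV
  set u := k * Y + β * Z with hu
  have e0 : w0 * y1 ^ 2 = Y ^ 2 / a := by
    rw [eq_div_iff ha.ne', hY, mul_pow, ← h0]; ring
  have e1 : w1 * y2 ^ 2 = Z ^ 2 / b := by
    rw [eq_div_iff hb.ne', hZ, mul_pow, ← h1]; ring
  have e2 : w2 * y3 ^ 2 = V ^ 2 / c := by
    rw [eq_div_iff hc.ne', hV, mul_pow, ← h2]; ring
  have t2 : -(c * u ^ 2) ≤ V ^ 2 / c - 2 * V * u := by
    have : V ^ 2 / c - 2 * V * u + c * u ^ 2 = (V - c * u) ^ 2 / c := by field_simp; ring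
    have h3 : 0 ≤ (V - c * u) ^ 2 / c := by positivity
    linarith
  have hR : 0 < 1 - b * C * β ^ 2 := by
    have : 0 ≤ β ^ 2 * (a * (s1 + b)) := by positivity
    have : 0 ≤ a * C * (k + b * β ^ 2) ^ 2 := by positivity
    nlinarith
  have t1 : 0 ≤ Y ^ 2 / a + Z ^ 2 / b - 2 * β * Y * Z - s1 * β ^ 2 * Y ^ 2 - C * u ^ 2 := by
    have hD : 0 ≤ 1 - (β ^ 2 * (a * (s1 + b) + b * C) + a * C * (k + b * β ^ 2) ^ 2) +
        a * C * b * (s1 + b) * β ^ 4 := by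
      have : 0 ≤ a * C * b * (s1 + b) * β ^ 4 := by positivity
      linarith
    have key : (Y ^ 2 / a + Z ^ 2 / b - 2 * β * Y * Z - s1 * β ^ 2 * Y ^ 2 - C * u ^ 2) *
        (a * b * (1 - b * C * β ^ 2)) =
        a * ((1 - b * C * β ^ 2) * Z - b * β * (1 + C * k) * Y) ^ 2 +
        b * (1 - (β ^ 2 * (a * (s1 + b) + b * C) + a * C * (k + b * β ^ 2) ^ 2) +
        a * C * b * (s1 + b) * β ^ 4) * Y ^ 2 := by
      rw [hu]; field_simp; ring
    have h4 : 0 ≤ (Y ^ 2 / a + Z ^ 2 / b - 2 * β * Y * Z - s1 * β ^ 2 * Y ^ 2 - C * u ^ 2) *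
        (a * b * (1 - b * C * β ^ 2)) := by
      rw [key]; positivity
    exact nonneg_of_mul_nonneg_left h4 (by positivity)
  have goal : (w0 + s0) * y1 ^ 2 + (w1 + s1) * y2 ^ 2 + (w2 + s2) * y3 ^ 2 -
      (s0 * y1 ^ 2 + s1 * (s0 * β * y1 + y2) ^ 2 + s2 * (s0 * k * y1 + s1 * β * y2 + y3) ^ 2) =
      w0 * y1 ^ 2 + w1 * y2 ^ 2 + w2 * y3 ^ 2 - 2 * β * Y * Z - s1 * β ^ 2 * Y ^ 2 - 2 * V * u
        - s2 * u ^ 2 := by
    rw [hu, hY, hZ, hV]; ring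
  rw [e0, e1, e2] at goal
  have : C * u ^ 2 = s2 * u ^ 2 + c * u ^ 2 := by rw [hCdef]; ring
  linarith

theorem real_contr (μ y1 y2 y3 : ℝ) :
    μ * y1 ^ 2 + (μ + 1) * (μ * (9 / 5) * y1 + y2) ^ 2 +
      (μ + 2) * (μ * (71 / 25 + (μ - 1) * (81 / 50)) * y1 + (μ + 1) * (9 / 5) * y2 + y3) ^ 2 ≤
      μ * Real.exp (100000 * μ) * y1 ^ 2 + (μ + 1) * Real.exp (100000 * (μ + 1)) * y2 ^ 2 +
      (μ + 2) * Real.exp (100000 * (μ + 2)) * y3 ^ 2 := by
  obtain ⟨x, hx, hx1, hx3, hx4⟩ := theta μ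
  obtain ⟨y, hy, hy1, hy3, hy4⟩ := theta (μ + 1)
  obtain ⟨z, hz, hz1, hz3, hz4⟩ := theta (μ + 2)
  have G := Gbound μ x y z hx hy hz hx1 hy1 hz1 hx3 hy3 hz3
  have m0 := le_max_right (-μ) 0
  have m1 := le_max_right (-(μ + 1)) 0
  have m2 := le_max_right (-(μ + 2)) 0
  have m1' := le_max_left (-(μ + 1)) 0
  have m2' := le_max_left (-(μ + 2)) 0
  have := quad μ (μ + 1) (μ + 2) _ _ _ _ _ _ (71 / 25 + (μ - 1) * (81 / 50)) (9 / 5) y1 y2 y3
    (by linarith) (by linarith) (by linarith) hx4 hy4 hz4 (by linarith) (by linarith)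
    (by convert G using 3 <;> norm_num)
  convert this using 1
  ring

end Pool.Agent.H156Z.DB
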