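import Pool.Agent.H156Z.DBNec
import Pool.Agent.H156Z.DBSuf

set_option autoImplicit false

namespace Pool.Agent.H156Z.DB

open Complex Set Metric Pool.Agent.Helper499.Arc

/-- the first coefficient -/
noncomputable def b0 : ℝ := Real.exp (-50000)

theorem b0_pos : 0 < b0 := Real.exp_pos _

/-- the coefficient triple -/
noncomputable def bb (n : ℕ) : ℂ :=
  if n = 1 then (b0 : ℂ) else if n = 2 then (b0 : ℂ) * (9 / 5) else (b0 : ℂ) * (71 / 25)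

theorem rpow_sq (s : ℝ) : Real.exp (100000 * s) * (b0 ^ s) ^ 2 = 1 := by
  rw [b0, ← Real.exp_mul, ← Real.exp_nat_mul, ← Real.exp_add]
  convert Real.exp_zero using 2
  push_cast
  ring

theorem cx_contr (μ : ℝ) (a1 a2 a3 : ℂ) :
    μ * ‖a1 * ((b0 ^ μ : ℝ) : ℂ)‖ ^ 2 +
      (μ + 1) * ‖a1 * ((b0 ^ μ : ℝ) : ℂ) * ((μ * (9 / 5) : ℝ) : ℂ) + a2 * ((b0 ^ (μ + 1) : ℝ) : ℂ)‖ ^ 2 +
      (μ + 2) * ‖a1 * ((b0 ^ μ : ℝ) : ℂ) * ((μ * (71 / 25 + (μ - 1) * (81 / 50)) : ℝ) : ℂ) +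
        a2 * ((b0 ^ (μ + 1) : ℝ) : ℂ) * (((μ + 1) * (9 / 5) : ℝ) : ℂ) +
        a3 * ((b0 ^ (μ + 2) : ℝ) : ℂ)‖ ^ 2 ≤
      μ * ‖a1‖ ^ 2 + (μ + 1) * ‖a2‖ ^ 2 + (μ + 2) * ‖a3‖ ^ 2 := by
  have r0 := rpow_sq μ
  have r1 := rpow_sq (μ + 1)
  have r2 := rpow_sq (μ + 2)
  set E0 := b0 ^ μ
  set E1 := b0 ^ (μ + 1)
  set E2 := b0 ^ (μ + 2)
  have h1 := real_contr μ (a1.re * E0) (a2.re * E1) (a3.re * E2)
  have h2 := real_contr μ (a1.im * E0) (a2.im * E1) (a3.im * E2)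
  simp only [Complex.sq_norm, Complex.normSq_apply, Complex.add_re, Complex.add_im, Complex.mul_re,
    Complex.mul_im, Complex.ofReal_re, Complex.ofReal_im, mul_zero, sub_zero, zero_add, add_zero]
  have e0 : ∀ x : ℝ, μ * Real.exp (100000 * μ) * (x * E0) ^ 2 = μ * x ^ 2 := fun x => by
    linear_combination μ * x ^ 2 * r0
  have e1 : ∀ x : ℝ, (μ + 1) * Real.exp (100000 * (μ + 1)) * (x * E1) ^ 2 = (μ + 1) * x ^ 2 :=
    fun x => by linear_combination (μ + 1) * x ^ 2 * r1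
  have e2 : ∀ x : ℝ, (μ + 2) * Real.exp (100000 * (μ + 2)) * (x * E2) ^ 2 = (μ + 2) * x ^ 2 :=
    fun x => by linear_combination (μ + 2) * x ^ 2 * r2
  rw [e0, e1, e2] at h1 h2
  nlinarith [h1, h2]

theorem no_map : ¬ ∃ B : ℂ → ℂ, DifferentiableOn ℂ B (Metric.ball (0 : ℂ) 1) ∧
    Set.InjOn B (Metric.ball (0 : ℂ) 1) ∧
    Set.MapsTo B (Metric.ball (0 : ℂ) 1) (Metric.ball (0 : ℂ) 1) ∧ B 0 = 0 ∧
    ∀ n ∈ Finset.Icc 1 3, iteratedDeriv n B 0 / ((n.factorial : ℕ) : ℂ) = bb n := by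
  rintro ⟨B, hd, hi, -, h0, hc⟩
  have hb : (b0 : ℂ) ≠ 0 := by exact_mod_cast b0_pos.ne'
  have hPS : PS (fun n => (n.factorial : ℂ)⁻¹ * iteratedDeriv n B 0) B := by
    intro z hz
    have h := Complex.hasSum_taylorSeries_on_ball (r := (1 : NNReal)) (c := (0 : ℂ)) (z := z) (f := B)
      (by simpa using hd) (by simpa using hz)
    simp only [sub_zero, smul_eq_mul] at h
    have h2 : (fun n : ℕ => (n.factorial : ℂ)⁻¹ * iteratedDeriv n B 0 * z ^ n)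
        = fun n : ℕ => (n.factorial : ℂ)⁻¹ * (z ^ n * iteratedDeriv n B 0) := by
      funext n; ring
    simpa only [h2] using h
  have hP := hPS.const_mul (b0 : ℂ)⁻¹
  have c1 := hc 1 (by decide)
  have c2 := hc 2 (by decide)
  have c3 := hc 3 (by decide)
  rw [div_eq_inv_mul] at c1 c2 c3
  have hS : InS (fun z => (b0 : ℂ)⁻¹ * B z) := by
    refine ⟨hd.const_mul _, ?_, by simp [h0], ?_⟩
    · intro x hx y hy hxy
      exact hi hx hy (mul_left_cancel₀ (inv_ne_zero hb) hxy)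
    · rw [hP.deriv_zero, c1]
      simp [bb, hb]
  refine not_coeff hS hP ?_ ?_
  · simp only [c2]
    simp [bb, hb]
  · simp only [c3]
    simp [bb, hb]

end Pool.Agent.H156Z.DB
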