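import Pool.Agent.Helper499.ArcArea
import Pool.Agent.Helper499.ArcRoot

set_option autoImplicit false

/-! No function of the class S has second coefficient 9/5 and third coefficient 71/25. -/

namespace Pool.Agent.H156Z.DB

open Complex Set Filter Metric Topology Pool.Agent.Helper499.Arc

theorem PS_even {g : ℂ → ℂ} {σ : ℕ → ℂ} (hσ : PS σ g) :
    PS (fun k => if Even k then σ (k / 2) else 0) (fun w => g (w ^ 2)) := by
  have hsq : ∀ w : ℂ, ‖w‖ < 1 → ‖w ^ 2‖ < 1 := fun w hw => by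
    rw [norm_pow]; exact pow_lt_one₀ (norm_nonneg _) hw two_ne_zero
  intro w hw
  have h1 := hσ (w ^ 2) (hsq w hw)
  have hinj : Function.Injective (fun j : ℕ => 2 * j) := fun a b h => by
    have : 2 * a = 2 * b := h
    omega
  rw [← hinj.hasSum_iff]
  · convert h1 using 1
    funext j
    simp only [Function.comp_apply, even_two_mul, if_true]
    rw [show 2 * j / 2 = j by omega, pow_mul]
  · intro x hx
    have : ¬ Even x := by
      intro he
      obtain ⟨j, rfl⟩ := he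
      exact hx ⟨j, by ring⟩
    simp only [if_neg this, zero_mul]

theorem area_even {f s : ℂ → ℂ} (hf : InS f) (hs : IsRoot f s) (P : Polynomial ℂ) (m : ℕ)
    (hm : m ≤ 7) {κ : ℕ → ℂ} {K : ℂ → ℂ} (hK : PS κ K)
    (hKP : ∀ w : ℂ, w ≠ 0 → ‖w‖ < 1 → K (w ^ 2) / w ^ m = P.eval (s (w ^ 2) / w)) :
    (0 - (m : ℝ)) * ‖κ 0‖ ^ 2 + (2 - (m : ℝ)) * ‖κ 1‖ ^ 2 + (4 - (m : ℝ)) * ‖κ 2‖ ^ 2 +
      (6 - (m : ℝ)) * ‖κ 3‖ ^ 2 ≤ 0 := by
  have hsq : ∀ w : ℂ, ‖w‖ < 1 → ‖w ^ 2‖ < 1 := fun w hw => by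
    rw [norm_pow]; exact pow_lt_one₀ (norm_nonneg _) hw two_ne_zero
  have hh : DifferentiableOn ℂ (fun w => s (w ^ 2)) (ball (0 : ℂ) 1) := by
    refine hs.1.comp (by fun_prop) ?_
    intro w hw
    simpa using hsq w (by simpa using hw)
  have h := area_poly (fun w => s (w ^ 2)) hh (by simp [hs.2.1]) (root_inj hf hs)
    P m _ _ (PS_even hK) hKP 7 hm
  simp only [Finset.sum_range_succ, Finset.sum_range_zero] at h
  have n1 : ¬ Even 1 := by decide
  have n2 : Even 2 := by decide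
  have n3 : ¬ Even 3 := by decide
  have n4 : Even 4 := by decide
  have n5 : ¬ Even 5 := by decide
  have n6 : Even 6 := by decide
  simp only [Nat.cast_zero, Nat.cast_ofNat, Even.zero, if_true, Nat.zero_div,
    if_neg n1, if_pos n2, if_neg n3, if_pos n4, if_neg n5, if_pos n6, norm_zero] at h
  norm_num at h ⊢
  linarith

theorem not_coeff {f : ℂ → ℂ} (hf : InS f) {a : ℕ → ℂ} (ha : PS a f) (h2 : a 2 = 9 / 5)
    (h3 : a 3 = 71 / 25) : False := by
  obtain ⟨s, hs⟩ := exists_root hf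
  obtain ⟨σ, hσ⟩ := exists_PS hs.1
  have e0 : σ 0 = 1 := by rw [← hσ.zero, hs.2.1]
  have a0 : a 0 = 0 := by rw [← ha.zero, hf.2.2.1]
  have a1 : a 1 = 1 := by rw [← ha.deriv_zero, hf.2.2.2]
  have hX : PS (fun n => if n = 1 then 1 else 0) (fun z => z) := by
    have := PS_pow 1
    simpa using this
  have hL : PS (cv a (cv σ σ)) (fun z => z) := by
    apply (ha.mul (hσ.mul hσ)).congr
    intro z hz
    have h := hs.2.2.2 z (by simpa using hz)
    linear_combination h
  have u2 := congrFun (hL.unique hX) 2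
  have u3 := congrFun (hL.unique hX) 3
  simp only [cv, Finset.sum_range_succ, Finset.sum_range_zero] at u2 u3
  norm_num at u2 u3
  rw [e0, a0, a1, h2] at u2
  rw [e0, a0, a1, h2, h3] at u3
  have e1 : σ 1 = -9 / 10 := by linear_combination u2 / 2
  rw [e1] at u3
  have e2 : σ 2 = -41 / 200 := by linear_combination u3 / 2
  have A1 := area_even hf hs Polynomial.X 1 (by norm_num) hσ (by
    intro w hw hw1
    simp)
  have hK := ((hσ.mul (hσ.mul hσ)).const_mul (9 / 50)).add ((hX.mul hσ).const_mul (743 / 500))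
  have A2 := area_even hf hs (Polynomial.C (9 / 50) * Polynomial.X ^ 3 +
      Polynomial.C (743 / 500) * Polynomial.X) 3 (by norm_num) hK (by
    intro w hw hw1
    simp only [Polynomial.eval_add, Polynomial.eval_mul, Polynomial.eval_C, Polynomial.eval_pow,
      Polynomial.eval_X]
    field_simp)
  have k0 : (9 / 50 * cv σ (cv σ σ) 0 + 743 / 500 * cv (fun n => if n = 1 then 1 else 0) σ 0 : ℂ)
      = ((9 / 50 : ℝ) : ℂ) := by
    simp only [cv, Finset.sum_range_succ, Finset.sum_range_zero]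
    norm_num [e0]
  have k1 : (9 / 50 * cv σ (cv σ σ) 1 + 743 / 500 * cv (fun n => if n = 1 then 1 else 0) σ 1 : ℂ)
      = ((1 : ℝ) : ℂ) := by
    simp only [cv, Finset.sum_range_succ, Finset.sum_range_zero]
    norm_num [e0, e1]
  have k2 : (9 / 50 * cv σ (cv σ σ) 2 + 743 / 500 * cv (fun n => if n = 1 then 1 else 0) σ 2 : ℂ)
      = ((-10107 / 10000 : ℝ) : ℂ) := by
    simp only [cv, Finset.sum_range_succ, Finset.sum_range_zero]
    norm_num [e0, e1, e2]
  have k3 : (9 / 50 * cv σ (cv σ σ) 3 + 743 / 500 * cv (fun n => if n = 1 then 1 else 0) σ 3 : ℂ)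
      = ((27 / 50 : ℝ) : ℂ) * σ 3 - ((23659 / 100000 : ℝ) : ℂ) := by
    simp only [cv, Finset.sum_range_succ, Finset.sum_range_zero]
    norm_num [e0, e1, e2]
    ring
  simp only [k0, k1, k2, k3, Complex.norm_real, Real.norm_eq_abs, sq_abs] at A2
  have f1 : ‖σ 1‖ ^ 2 = 81 / 100 := by
    rw [e1, show (-9 / 10 : ℂ) = ((-9 / 10 : ℝ) : ℂ) by push_cast; ring, Complex.norm_real,
      Real.norm_eq_abs, sq_abs]
    norm_num
  have f2 : ‖σ 2‖ ^ 2 = 1681 / 40000 := by
    rw [e2, show (-41 / 200 : ℂ) = ((-41 / 200 : ℝ) : ℂ) by push_cast; ring, Complex.norm_real,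
      Real.norm_eq_abs, sq_abs]
    norm_num
  rw [e0, f1, f2, norm_one] at A1
  have hn : ‖σ 3‖ ≤ 1131 / 10000 := by
    by_contra hc
    push Not at hc
    push_cast at A1
    nlinarith
  have hl : 1755 / 10000 ≤ ‖((27 / 50 : ℝ) : ℂ) * σ 3 - ((23659 / 100000 : ℝ) : ℂ)‖ := by
    have h1 := norm_sub_norm_le (((23659 / 100000 : ℝ) : ℂ)) (((27 / 50 : ℝ) : ℂ) * σ 3)
    rw [norm_sub_rev, norm_mul, Complex.norm_real, Complex.norm_real, Real.norm_eq_abs,
      Real.norm_eq_abs, abs_of_pos (by norm_num), abs_of_pos (by norm_num)] at h1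
    linarith
  push_cast at A2 hl
  nlinarith

end Pool.Agent.H156Z.DB
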