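import Mathlib

set_option autoImplicit false

/-! Derivations of the complex numbers dual to algebraically independent elements. -/

namespace Pool.Agent.H156Z.Der

open Cardinal

/-- dual numbers as a type synonym -/
def Dual : Type := TrivSqZeroExt ℂ ℂ

noncomputable instance : CommRing Dual := inferInstanceAs (CommRing (TrivSqZeroExt ℂ ℂ))
noncomputable instance : Algebra ℚ Dual := inferInstanceAs (Algebra ℚ (TrivSqZeroExt ℂ ℂ))

theorem exists_ringHom {ι : Type} (v : ι → ℂ) (hv : IsTranscendenceBasis ℚ v) (w : ι → ℂ) :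
    ∃ φ : ℂ →+* TrivSqZeroExt ℂ ℂ, (∀ z, (φ z).fst = z) ∧ ∀ i, (φ (v i)).snd = w i := by
  let A := MvPolynomial ι ℚ
  let K := FractionRing A
  let f : A →ₐ[ℚ] ℂ := MvPolynomial.aeval v
  have hf : Function.Injective f := hv.1
  let _ : Algebra A ℂ := f.toRingHom.toAlgebra
  have : FaithfulSMul A ℂ := (faithfulSMul_iff_algebraMap_injective A ℂ).2 hf
  let _ : Algebra K ℂ := FractionRing.liftAlgebra A ℂ
  have : IsScalarTower A K ℂ := FractionRing.isScalarTower_liftAlgebra A ℂ
  have : Algebra.IsAlgebraic A ℂ := by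
    have h1 := hv.isAlgebraic
    refine Algebra.IsAlgebraic.of_ringHom_of_comp_eq (S := Algebra.adjoin ℚ (Set.range v)) (A := ℂ)
      (R := A) (B := ℂ) hv.1.aevalEquiv.toRingEquiv.toRingHom (RingHom.id ℂ)
      hv.1.aevalEquiv.surjective Function.injective_id ?_
    refine RingHom.ext fun a => ?_
    exact hv.1.algebraMap_aevalEquiv a
  have : Algebra.IsAlgebraic K ℂ := Algebra.IsAlgebraic.extendScalars (R := A) (IsFractionRing.injective A K)
  have : CharZero K := by infer_instance
  have : Algebra.IsSeparable K ℂ := Algebra.IsAlgebraic.isSeparable_of_perfectField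
  have : Algebra.FormallyEtale K ℂ := Algebra.FormallyEtale.of_isSeparable K ℂ
  have : Algebra.FormallyEtale A K := Algebra.FormallyEtale.of_isLocalization (nonZeroDivisors A)
  have : Algebra.FormallySmooth A ℂ := Algebra.FormallySmooth.comp A K ℂ
  let u : ι → Dual := fun i => (TrivSqZeroExt.inl (v i) + TrivSqZeroExt.inr (w i) : TrivSqZeroExt ℂ ℂ)
  let g0 : A →ₐ[ℚ] Dual := MvPolynomial.aeval u
  let _ : Algebra A Dual := g0.toRingHom.toAlgebra
  let p0 : Dual →ₐ[ℚ] ℂ := TrivSqZeroExt.fstHom ℚ ℂ ℂ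
  have hp : p0.comp g0 = f := by
    apply MvPolynomial.algHom_ext
    intro i
    simp only [AlgHom.comp_apply, g0, f, MvPolynomial.aeval_X]
    change TrivSqZeroExt.fst (TrivSqZeroExt.inl (v i) + TrivSqZeroExt.inr (w i) : TrivSqZeroExt ℂ ℂ) = v i
    simp
  let p : Dual →ₐ[A] ℂ :=
    { toRingHom := p0.toRingHom
      commutes' := fun a => by
        change p0 (g0 a) = f a
        rw [← hp]; rfl }
  have hs : Function.Surjective p := fun z => ⟨(TrivSqZeroExt.inl z : TrivSqZeroExt ℂ ℂ), rfl⟩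
  have key : ∀ a b : TrivSqZeroExt ℂ ℂ, a.fst = 0 → b.fst = 0 → a * b = 0 := by
    intro a b ha hb
    ext
    · simp [ha]
    · simp [ha, hb]
  have hn : IsNilpotent (RingHom.ker (p : Dual →+* ℂ)) := by
    refine ⟨2, ?_⟩
    rw [pow_two, Ideal.zero_eq_bot, eq_bot_iff, Ideal.mul_le]
    intro a ha b hb
    rw [Ideal.mem_bot]
    exact key a b ha hb
  let φ := Algebra.FormallySmooth.liftOfSurjective (AlgHom.id A ℂ) p hs hn
  refine ⟨φ.toRingHom, fun z => ?_, fun i => ?_⟩
  · exact Algebra.FormallySmooth.liftOfSurjective_apply (AlgHom.id A ℂ) p hs hn z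
  · have h1 : φ (algebraMap A ℂ (MvPolynomial.X i)) = algebraMap A Dual (MvPolynomial.X i) :=
      φ.commutes _
    have h2 : algebraMap A ℂ (MvPolynomial.X i) = v i := by
      exact MvPolynomial.aeval_X v i
    have h3 : algebraMap A Dual (MvPolynomial.X i) = u i := by
      exact MvPolynomial.aeval_X u i
    rw [h2, h3] at h1
    change TrivSqZeroExt.snd (show TrivSqZeroExt ℂ ℂ from φ (v i)) = w i
    rw [h1]
    change TrivSqZeroExt.snd (TrivSqZeroExt.inl (v i) + TrivSqZeroExt.inr (w i) : TrivSqZeroExt ℂ ℂ) = w i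
    simp

theorem exists_derivation {ι : Type} (v : ι → ℂ) (hv : IsTranscendenceBasis ℚ v) (w : ι → ℂ) :
    ∃ D : Derivation ℤ ℂ ℂ, ∀ i, D (v i) = w i := by
  obtain ⟨φ, h1, h2⟩ := exists_ringHom v hv w
  let L : ℂ →+ ℂ :=
    { toFun := fun z => (φ z).snd
      map_zero' := by simp
      map_add' := fun a b => by simp }
  refine ⟨Derivation.mk' L.toIntLinearMap ?_, h2⟩
  intro a b
  change (φ (a * b)).snd = a • (φ b).snd + b • (φ a).snd
  rw [map_mul, TrivSqZeroExt.snd_mul, h1, h1]
  simp [mul_comm]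

/-- `d` complex numbers with dual derivations -/
theorem exists_dual (d : ℕ) : ∃ (c : Fin d → ℂ) (D : Fin d → Derivation ℤ ℂ ℂ),
    ∀ i j, D j (c i) = if i = j then 1 else 0 := by
  classical
  obtain ⟨s, hs⟩ := exists_isTranscendenceBasis ℚ ℂ
  have hc : #ℂ = #s := IsAlgClosed.cardinal_eq_cardinal_transcendence_basis_of_aleph0_lt' _ hs
    (by simp) (by rw [Cardinal.mk_complex]; exact Cardinal.aleph0_lt_continuum)
  have : Infinite s := by
    rw [Cardinal.infinite_iff, ← hc, Cardinal.mk_complex]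
    exact Cardinal.aleph0_le_continuum
  let e : Fin d ↪ s := Fin.valEmbedding.trans (Infinite.natEmbedding s)
  choose D hD using fun j : Fin d => exists_derivation _ hs (fun x => if x = e j then 1 else 0)
  refine ⟨fun i => (e i : ℂ), D, fun i j => ?_⟩
  rw [hD j (e i)]
  simp

end Pool.Agent.H156Z.Der
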