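import Mathlib
import Pool.Agent.H156Z.Der

set_option autoImplicit false

/-! Through a generic point of the Fermat hypersurface there is no polynomial curve. -/

namespace Pool.Agent.H156Z.NoCurve

open Polynomial Finset

theorem det_degree_lt {d : ℕ} (B : Matrix (Fin d) (Fin d) ℂ[X]) (i j : Fin d) (m : ℕ) (hm : 1 ≤ m)
    (h0 : B i j = 0) (h1 : ∀ k, (B i k).natDegree = 0)
    (h2 : ∀ r k, (B r k).natDegree ≤ m) (h3 : ∀ r, (B r j).natDegree + 1 ≤ m) :
    B.det.degree < ((d - 1) * m : ℕ) := by
  classical
  rw [← Polynomial.mem_degreeLT, Matrix.det_apply]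
  refine Submodule.sum_mem _ fun σ _ => ?_
  have key : (∏ k, B (σ k) k) ∈ Polynomial.degreeLT ℂ ((d - 1) * m) := by
    by_cases hσ : σ j = i
    · have : (∏ k, B (σ k) k) = 0 := Finset.prod_eq_zero (Finset.mem_univ j) (by rw [hσ, h0])
      rw [this]; exact Submodule.zero_mem _
    · rw [Polynomial.mem_degreeLT]
      have e1 : (∏ k, B (σ k) k).natDegree ≤ ∑ k, (B (σ k) k).natDegree :=
        Polynomial.natDegree_prod_le _ _
      have e2 : ∑ k, ((B (σ k) k).natDegree + if k = j then 1 else 0) ≤
          ∑ k, (if σ k = i then 0 else m) := by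
        refine Finset.sum_le_sum fun k _ => ?_
        by_cases hk : k = j
        · subst hk
          simp only [if_true, hσ, if_false]
          exact h3 _
        · by_cases hs : σ k = i
          · simp [hk, hs, h1]
          · simp only [hk, hs, if_false, add_zero]
            exact h2 _ _
      have e3 : ∑ k, (if σ k = i then 0 else m) = (d - 1) * m := by
        rw [Equiv.sum_comp σ (fun r => if r = i then 0 else m)]
        have : ∑ r : Fin d, (if r = i then 0 else m) + m = d * m := by
          have : ∀ r : Fin d, (if r = i then 0 else m) + (if r = i then m else 0) = m := by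
            intro r; split_ifs <;> simp
          calc ∑ r : Fin d, (if r = i then 0 else m) + m
              = ∑ r : Fin d, (if r = i then 0 else m) + ∑ r : Fin d, (if r = i then m else 0) := by
                simp
            _ = ∑ r : Fin d, m := by rw [← Finset.sum_add_distrib]; simp [this]
            _ = d * m := by simp
        rw [Nat.sub_mul, one_mul]
        omega
      rw [Finset.sum_add_distrib, e3] at e2
      simp only [Finset.sum_ite_eq', Finset.mem_univ, if_true] at e2
      refine lt_of_le_of_lt Polynomial.degree_le_natDegree ?_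
      exact_mod_cast (by omega : (∏ k, B (σ k) k).natDegree < (d - 1) * m)
  rcases Int.units_eq_one_or (Equiv.Perm.sign σ) with h | h
  · rw [h, one_smul]; exact key
  · rw [h, Units.neg_smul, one_smul]; exact Submodule.neg_mem _ key

/-- coefficientwise derivation -/
noncomputable def mapD (D : Derivation ℤ ℂ ℂ) : Derivation ℤ ℂ[X] ℂ[X] :=
  @Differential.mapCoeffs ℂ _ ⟨D⟩

theorem coeff_mapD (D : Derivation ℤ ℂ ℂ) (p : ℂ[X]) (i : ℕ) :
    (mapD D p).coeff i = D (p.coeff i) :=
  @Differential.coeff_mapCoeffs ℂ _ ⟨D⟩ p i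

theorem natDegree_mapD (D : Derivation ℤ ℂ ℂ) (p : ℂ[X]) : (mapD D p).natDegree ≤ p.natDegree := by
  rw [Polynomial.natDegree_le_iff_coeff_eq_zero]
  intro N hN
  rw [coeff_mapD, Polynomial.coeff_eq_zero_of_natDegree_lt hN, map_zero]

theorem mapD_C (D : Derivation ℤ ℂ ℂ) (a : ℂ) : mapD D (C a) = C (D a) := by
  ext i
  rw [coeff_mapD, coeff_C, coeff_C]
  split_ifs <;> simp

theorem no_curve {d : ℕ} (hd : 0 < d) (c : Fin d → ℂ) (D : Fin d → Derivation ℤ ℂ ℂ)
    (hD : ∀ i j, D j (c i) = if i = j then 1 else 0) (p : Fin d → ℂ[X])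
    (hp : ∀ i, (p i).coeff 0 = c i) (s : ℂ) (hs : ∑ i, p i ^ d = C s) (i : Fin d) :
    p i = C (c i) := by
  classical
  have hne : (Finset.univ : Finset (Fin d)).Nonempty := ⟨i, Finset.mem_univ _⟩
  obtain ⟨i0, -, hi0⟩ := Finset.exists_max_image Finset.univ (fun k => (p k).natDegree) hne
  set m := (p i0).natDegree with hm
  have hle : ∀ k, (p k).natDegree ≤ m := fun k => hi0 k (Finset.mem_univ _)
  by_cases hm0 : m = 0
  · have : (p i).natDegree = 0 := by have := hle i; omega
    rw [Polynomial.eq_C_of_natDegree_eq_zero this, hp]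
  have hm1 : 1 ≤ m := by omega
  have hp0 : p i0 ≠ 0 := by
    intro h; rw [h] at hm; simp at hm; omega
  let A : Matrix (Fin d) (Fin d) ℂ[X] := fun r k => mapD (D k) (p r)
  have hA : A.det ≠ 0 := by
    intro h
    have h1 : (Polynomial.constantCoeff : ℂ[X] →+* ℂ) A.det = 0 := by rw [h, map_zero]
    rw [RingHom.map_det] at h1
    have h2 : (Polynomial.constantCoeff : ℂ[X] →+* ℂ).mapMatrix A = 1 := by
      ext r k
      simp [A, coeff_mapD, hp, hD, Matrix.one_apply]
    rw [h2, Matrix.det_one] at h1
    exact one_ne_zero h1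
  have hdC : (d : ℂ[X]) ≠ 0 := by exact_mod_cast hd.ne'
  have hdc : (d : ℂ) ≠ 0 := by exact_mod_cast hd.ne'
  -- the relations
  have rel1 : ∀ k, ∑ r, p r ^ (d - 1) * mapD (D k) (p r) = C (D k s / d) := by
    intro k
    have h1 := congrArg (mapD (D k)) hs
    rw [map_sum, mapD_C] at h1
    simp only [Derivation.leibniz_pow, smul_eq_mul, nsmul_eq_mul] at h1
    rw [← Finset.mul_sum] at h1
    apply mul_left_cancel₀ hdC
    rw [h1, ← Polynomial.C_eq_natCast, ← C_mul, mul_div_cancel₀ _ hdc]
  have rel2 : ∑ r, p r ^ (d - 1) * derivative (p r) = 0 := by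
    have h1 := congrArg derivative hs
    rw [derivative_sum, derivative_C] at h1
    simp only [derivative_pow, mul_assoc] at h1
    rw [← Finset.mul_sum, Polynomial.C_eq_natCast] at h1
    exact (mul_eq_zero.1 h1).resolve_left hdC
  have hcr : Matrix.cramer A (fun r => derivative (p r)) = 0 := by
    funext j
    rw [Matrix.cramer_apply, Pi.zero_apply]
    set B := A.updateCol j (fun r => derivative (p r)) with hB
    have h1 := Matrix.det_updateRow_sum B i0 (fun r => p r ^ (d - 1))
    have hrow : ∀ k, (∑ r, p r ^ (d - 1) • B r) k = if k = j then 0 else C (D k s / d) := by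
      intro k
      rw [Finset.sum_apply]
      simp only [Pi.smul_apply, smul_eq_mul, hB, Matrix.updateCol_apply]
      split_ifs with hk
      · exact rel2
      · exact rel1 k
    have h2 := det_degree_lt (B.updateRow i0 (∑ r, p r ^ (d - 1) • B r)) i0 j m hm1
      (by rw [Matrix.updateRow_self, hrow]; simp)
      (by
        intro k
        rw [Matrix.updateRow_self, hrow]
        split_ifs <;> simp)
      (by
        intro r k
        rw [Matrix.updateRow_apply]
        split_ifs with hr
        · rw [hrow]; split_ifs <;> simp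
        · rw [hB, Matrix.updateCol_apply]
          split_ifs with hk
          · exact (Polynomial.natDegree_derivative_le _).trans ((Nat.sub_le _ _).trans (hle r))
          · exact (natDegree_mapD _ _).trans (hle r))
      (by
        intro r
        rw [Matrix.updateRow_apply]
        split_ifs with hr
        · rw [hrow]; simpa using hm1
        · rw [hB, Matrix.updateCol_self]
          have := Polynomial.natDegree_derivative_le (p r)
          have := hle r
          omega)
    rw [h1, smul_eq_mul] at h2
    by_contra hdet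
    have h3 : (p i0 ^ (d - 1) * B.det).natDegree = (d - 1) * m + B.det.natDegree := by
      rw [Polynomial.natDegree_mul (pow_ne_zero _ hp0) hdet, Polynomial.natDegree_pow]
    rw [Polynomial.degree_eq_natDegree (mul_ne_zero (pow_ne_zero _ hp0) hdet), h3] at h2
    have : (d - 1) * m + B.det.natDegree < (d - 1) * m := by exact_mod_cast h2
    omega
  have h4 := Matrix.mulVec_cramer A (fun r => derivative (p r))
  rw [hcr, Matrix.mulVec_zero] at h4
  have h5 := congrFun h4 i
  simp only [Pi.zero_apply, Pi.smul_apply, smul_eq_mul] at h5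
  have h6 : derivative (p i) = 0 := (mul_eq_zero.1 h5.symm).resolve_left hA
  rw [Polynomial.eq_C_of_natDegree_eq_zero (Polynomial.derivative_eq_zero.1 h6), hp]

/-- A point `c` with nonzero power sum through which no nonconstant polynomial curve of the
Fermat hypersurface passes. -/
theorem exists_point {d : ℕ} (hd : 0 < d) : ∃ c : Fin d → ℂ, ∑ i, c i ^ d ≠ 0 ∧
    ∀ (p : Fin d → ℂ[X]) (s : ℂ), (∀ i, (p i).coeff 0 = c i) → ∑ i, p i ^ d = C s →
      ∀ i, p i = C (c i) := by
  classical
  obtain ⟨c, D, hD⟩ := Pool.Agent.H156Z.Der.exists_dual d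
  refine ⟨c, ?_, fun p s hp hs i => no_curve hd c D hD p hp s hs i⟩
  intro h
  let j : Fin d := ⟨0, hd⟩
  have h1 := congrArg (D j) h
  rw [map_sum, map_zero] at h1
  simp only [Derivation.leibniz_pow, smul_eq_mul, nsmul_eq_mul, hD, mul_ite, mul_one, mul_zero,
    Finset.sum_ite_eq', Finset.mem_univ, if_true] at h1
  have hc : c j ≠ 0 := by
    intro h0
    have := hD j j
    rw [h0, map_zero, if_pos rfl] at this
    exact zero_ne_one this
  have hdc : (d : ℂ) ≠ 0 := by exact_mod_cast hd.ne'
  exact mul_ne_zero hdc (pow_ne_zero _ hc) h1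

end Pool.Agent.H156Z.NoCurve
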