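import Mathlib

set_option autoImplicit false

/-! A weighted homogeneous polynomial self map of affine space with trivial zero fibre is onto. -/

namespace Pool.Agent.H156Z.Null

open MvPolynomial Finset

theorem finite_of_null {σ τ : Type} [Fintype σ] [Fintype τ] (w : σ → ℕ) (Φ : τ → MvPolynomial σ ℂ)
    (dg : τ → ℕ) (hdg : ∀ m, 0 < dg m) (hh : ∀ m, IsWeightedHomogeneous w (Φ m) (dg m))
    (hnull : ∀ x : σ → ℂ, (∀ m, eval x (Φ m) = 0) → x = 0) :
    Module.Finite (Algebra.adjoin ℂ (Set.range Φ)) (MvPolynomial σ ℂ) := by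
  classical
  set S := Algebra.adjoin ℂ (Set.range Φ) with hS
  let I : Ideal (MvPolynomial σ ℂ) := Ideal.span (Set.range Φ)
  have hrad : ∀ s : σ, ∃ n : ℕ, (X s : MvPolynomial σ ℂ) ^ n ∈ I := by
    intro s
    have : (X s : MvPolynomial σ ℂ) ∈ I.radical := by
      rw [← vanishingIdeal_zeroLocus_eq_radical (K := ℂ), mem_vanishingIdeal_iff]
      intro x hx
      have hx0 : x = 0 := by
        apply hnull
        intro m
        have := (mem_zeroLocus_iff.1 hx) (Φ m) (Ideal.subset_span ⟨m, rfl⟩)
        simpa using this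
      simp [hx0]
    exact this
  choose n hn using hrad
  let T : Set (σ →₀ ℕ) := {α | ∀ s, α s < n s}
  have hT : T.Finite := by
    refine Set.Finite.of_finite_image (f := fun α : σ →₀ ℕ => (α : σ → ℕ)) ?_
      (DFunLike.coe_injective.injOn)
    refine (Set.Finite.pi' (t := fun s => Set.Iio (n s)) (fun s => Set.finite_Iio _)).subset ?_
    rintro _ ⟨α, hα, rfl⟩
    exact hα
  let N : Submodule S (MvPolynomial σ ℂ) :=
    Submodule.span S ((fun α => (monomial α (1 : ℂ) : MvPolynomial σ ℂ)) '' T)
  have hsm : ∀ (a : ℂ) (g : MvPolynomial σ ℂ), g ∈ N → C a * g ∈ N := by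
    intro a g hg
    exact N.smul_mem (⟨C a, S.algebraMap_mem a⟩ : S) hg
  have hΦ : ∀ m (g : MvPolynomial σ ℂ), g ∈ N → Φ m * g ∈ N := by
    intro m g hg
    exact N.smul_mem (⟨Φ m, Algebra.subset_adjoin ⟨m, rfl⟩⟩ : S) hg
  have main : ∀ W : ℕ, ∀ α : σ →₀ ℕ, Finsupp.weight w α = W →
      (monomial α (1 : ℂ) : MvPolynomial σ ℂ) ∈ N := by
    intro W
    induction W using Nat.strong_induction_on with
    | _ W ih =>
      intro α hα
      by_cases hαT : α ∈ T
      · exact Submodule.subset_span ⟨α, hαT, rfl⟩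
      · have : ∃ s, n s ≤ α s := by
          by_contra hc
          push Not at hc
          exact hαT hc
        obtain ⟨s, hs⟩ := this
        have hmem : (monomial α (1 : ℂ) : MvPolynomial σ ℂ) ∈ I := by
          have e : (monomial α (1 : ℂ) : MvPolynomial σ ℂ) =
              monomial (α - Finsupp.single s (n s)) 1 * X s ^ n s := by
            rw [X_pow_eq_monomial, monomial_mul, mul_one, tsub_add_cancel_of_le]
            rwa [Finsupp.single_le_iff]
          rw [e]
          exact I.mul_mem_left _ (hn s)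
        obtain ⟨g, hg⟩ := (Submodule.mem_span_range_iff_exists_fun _).1 hmem
        have h1 : weightedHomogeneousComponent w W (monomial α (1 : ℂ) : MvPolynomial σ ℂ) =
            monomial α 1 :=
          (isWeightedHomogeneous_monomial w α 1 hα).weightedHomogeneousComponent_same
        rw [← h1, ← hg, map_sum]
        refine N.sum_mem fun m _ => ?_
        rw [smul_eq_mul, (g m).as_sum, Finset.sum_mul, map_sum]
        refine N.sum_mem fun β _ => ?_
        have h2 : IsWeightedHomogeneous w (monomial β (coeff β (g m)) * Φ m)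
            (Finsupp.weight w β + dg m) :=
          (isWeightedHomogeneous_monomial w β _ rfl).mul (hh m)
        rw [weightedHomogeneousComponent_of_mem (n := Finsupp.weight w β + dg m) h2]
        split_ifs with hW
        · have h3 : Finsupp.weight w β < W := by have := hdg m; omega
          have h4 := ih _ h3 β rfl
          have e : (monomial β (coeff β (g m)) * Φ m : MvPolynomial σ ℂ) =
              Φ m * (C (coeff β (g m)) * monomial β 1) := by
            rw [C_mul_monomial, mul_one, mul_comm]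
          rw [e]
          exact hΦ _ _ (hsm _ _ h4)
        · exact N.zero_mem
  have hN : N = ⊤ := by
    rw [eq_top_iff]
    intro g _
    rw [g.as_sum]
    refine N.sum_mem fun β _ => ?_
    have e : (monomial β (coeff β g) : MvPolynomial σ ℂ) = C (coeff β g) * monomial β 1 := by
      rw [C_mul_monomial, mul_one]
    rw [e]
    exact hsm _ _ (main _ β rfl)
  exact ⟨by rw [← hN]; exact Submodule.fg_span (hT.image _)⟩

theorem surj_of_null {σ τ : Type} [Fintype σ] [Fintype τ] (hcard : Fintype.card τ ≤ Fintype.card σ)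
    (w : σ → ℕ) (Φ : τ → MvPolynomial σ ℂ)
    (dg : τ → ℕ) (hdg : ∀ m, 0 < dg m) (hh : ∀ m, IsWeightedHomogeneous w (Φ m) (dg m))
    (hnull : ∀ x : σ → ℂ, (∀ m, eval x (Φ m) = 0) → x = 0) (y : τ → ℂ) :
    ∃ x : σ → ℂ, ∀ m, eval x (Φ m) = y m := by
  have hfin := finite_of_null w Φ dg hdg hh hnull
  have hint : Algebra.IsIntegral (Algebra.adjoin ℂ (Set.range Φ)) (MvPolynomial σ ℂ) :=
    Algebra.IsIntegral.of_finite _ _
  have halg : Algebra.IsAlgebraic (Algebra.adjoin ℂ (Set.range Φ)) (MvPolynomial σ ℂ) :=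
    Algebra.IsIntegral.isAlgebraic
  have hb : IsTranscendenceBasis ℂ Φ := by
    apply Algebra.IsAlgebraic.isTranscendenceBasis_of_le_trdeg_of_finite
    rw [MvPolynomial.trdeg_of_isDomain]
    simpa using hcard
  let ψ : Algebra.adjoin ℂ (Set.range Φ) →ₐ[ℂ] ℂ := (aeval y).comp hb.1.aevalEquiv.symm.toAlgHom
  have hψ : Function.Surjective ψ := fun z => ⟨algebraMap ℂ _ z, by simp⟩
  have hmax : (RingHom.ker ψ).IsMaximal := RingHom.ker_isMaximal_of_surjective ψ hψ
  obtain ⟨Q, hQ, hQP⟩ := Ideal.exists_ideal_over_maximal_of_isIntegral (S := MvPolynomial σ ℂ)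
    (RingHom.ker ψ) (by
      rw [(RingHom.injective_iff_ker_eq_bot _).1 Subtype.val_injective]
      exact bot_le)
  obtain ⟨x, hx⟩ := isMaximal_iff_eq_vanishingIdeal_singleton.1 hQ
  refine ⟨x, fun m => ?_⟩
  let a : Algebra.adjoin ℂ (Set.range Φ) := hb.1.aevalEquiv (X m - C (y m))
  have ha : a ∈ RingHom.ker ψ := by
    rw [RingHom.mem_ker]
    simp [ψ, a]
  rw [← hQP, Ideal.mem_comap, hx, mem_vanishingIdeal_singleton_iff] at ha
  have e : algebraMap _ (MvPolynomial σ ℂ) a = Φ m - C (y m) := by
    rw [hb.1.algebraMap_aevalEquiv]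
    simp
  rw [e] at ha
  simpa [sub_eq_zero] using ha

end Pool.Agent.H156Z.Null
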