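import Mathlib
import Pool.Agent.H156Z.NoCurve
import Pool.Agent.H156Z.Null

set_option autoImplicit false

/-! Every complex polynomial of degree at most `d * e` is a sum of `d` `d`-th powers of
polynomials of degree at most `e`. -/

namespace Pool.Agent.H156Z.Shapiro

open Polynomial Finset

/-- coefficients are weighted homogeneous of the matching degree -/
def Good {σ : Type} (w : σ → ℕ) (P : (MvPolynomial σ ℂ)[X]) : Prop :=
  ∀ m, MvPolynomial.IsWeightedHomogeneous w (P.coeff m) m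

theorem Good.mul {σ : Type} {w : σ → ℕ} {P Q : (MvPolynomial σ ℂ)[X]} (hP : Good w P)
    (hQ : Good w Q) : Good w (P * Q) := by
  intro m
  rw [Polynomial.coeff_mul]
  refine MvPolynomial.IsWeightedHomogeneous.sum _ _ _ fun x hx => ?_
  rw [← Finset.HasAntidiagonal.mem_antidiagonal.1 hx]
  exact (hP _).mul (hQ _)

theorem good_C {σ : Type} (w : σ → ℕ) (a : ℂ) : Good w (C (MvPolynomial.C a)) := by
  intro m
  rw [Polynomial.coeff_C]
  split_ifs with h
  · subst h; exact MvPolynomial.isWeightedHomogeneous_C w a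
  · exact MvPolynomial.isWeightedHomogeneous_zero _ _ _

theorem Good.pow {σ : Type} {w : σ → ℕ} {P : (MvPolynomial σ ℂ)[X]} (hP : Good w P) (n : ℕ) :
    Good w (P ^ n) := by
  induction n with
  | zero => simpa using good_C w 1
  | succ n ih => rw [pow_succ]; exact ih.mul hP

theorem Good.sum {σ ι : Type} {w : σ → ℕ} (s : Finset ι) {P : ι → (MvPolynomial σ ℂ)[X]}
    (hP : ∀ i, Good w (P i)) : Good w (∑ i ∈ s, P i) := by
  intro m
  rw [Polynomial.finsetSum_coeff]
  exact MvPolynomial.IsWeightedHomogeneous.sum _ _ _ fun i _ => hP i m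

theorem good_mono {σ : Type} (w : σ → ℕ) (s : σ) :
    Good w (monomial (w s) (MvPolynomial.X s)) := by
  intro m
  rw [Polynomial.coeff_monomial]
  split_ifs with h
  · subst h; exact MvPolynomial.isWeightedHomogeneous_X _ w s
  · exact MvPolynomial.isWeightedHomogeneous_zero _ _ _

theorem Good.add {σ : Type} {w : σ → ℕ} {P Q : (MvPolynomial σ ℂ)[X]} (hP : Good w P)
    (hQ : Good w Q) : Good w (P + Q) := by
  intro m
  rw [Polynomial.coeff_add]
  exact (hP m).add (hQ m)

theorem ext_of_coeff {N : ℕ} {F G : ℂ[X]} (hF : F.natDegree ≤ N) (hG : G.natDegree ≤ N)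
    (h0 : F.coeff 0 = G.coeff 0) (h : ∀ m : Fin N, F.coeff (m + 1) = G.coeff (m + 1)) : F = G := by
  ext n
  rcases n with _ | n
  · exact h0
  · by_cases hn : n < N
    · exact h ⟨n, hn⟩
    · rw [coeff_eq_zero_of_natDegree_lt (by omega), coeff_eq_zero_of_natDegree_lt (by omega)]

theorem with_const {d e : ℕ} (hd : 0 < d) : ∃ s : ℂ, s ≠ 0 ∧ ∀ F : ℂ[X], F.natDegree ≤ d * e →
    F.coeff 0 = s → ∃ p : Fin d → ℂ[X], (∀ i, (p i).natDegree ≤ e) ∧ F = ∑ i, p i ^ d := by
  classical
  obtain ⟨c, hc, hno⟩ := Pool.Agent.H156Z.NoCurve.exists_point hd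
  refine ⟨_, hc, fun F hF hF0 => ?_⟩
  let w : Fin d × Fin e → ℕ := fun s => s.2 + 1
  let P : Fin d → (MvPolynomial (Fin d × Fin e) ℂ)[X] := fun i =>
    C (MvPolynomial.C (c i)) + ∑ k : Fin e, monomial (w (i, k)) (MvPolynomial.X (i, k))
  have hP : ∀ i, Good w (P i) := fun i => (good_C w _).add (Good.sum _ fun k => good_mono w _)
  have hS : Good w (∑ i, P i ^ d) := Good.sum _ fun i => (hP i).pow d
  let Φ : Fin (d * e) → MvPolynomial (Fin d × Fin e) ℂ := fun m => (∑ i, P i ^ d).coeff (m + 1)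
  let p : (Fin d × Fin e → ℂ) → Fin d → ℂ[X] := fun x i =>
    C (c i) + ∑ k : Fin e, monomial (k + 1) (x (i, k))
  have hmap : ∀ x i, (P i).map (MvPolynomial.eval x) = p x i := by
    intro x i
    simp [P, p, w, Polynomial.map_sum]
  have hΦ : ∀ x m, MvPolynomial.eval x (Φ m) = (∑ i, p x i ^ d).coeff (m + 1) := by
    intro x m
    simp only [Φ]
    rw [← Polynomial.coeff_map, Polynomial.map_sum]
    simp only [Polynomial.map_pow, hmap]
  have hdeg : ∀ x i, (p x i).natDegree ≤ e := by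
    intro x i
    refine (natDegree_add_le _ _).trans (max_le (by simp) ?_)
    refine natDegree_sum_le_of_forall_le _ _ fun k _ => (natDegree_monomial_le _).trans ?_
    have := k.2
    omega
  have hdegS : ∀ x, (∑ i, p x i ^ d).natDegree ≤ d * e := by
    intro x
    refine natDegree_sum_le_of_forall_le _ _ fun i _ => natDegree_pow_le.trans ?_
    exact Nat.mul_le_mul_left _ (hdeg x i)
  have hc0 : ∀ x i, (p x i).coeff 0 = c i := by
    intro x i
    simp [p, Polynomial.finsetSum_coeff, coeff_monomial]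
  have hck : ∀ x i (k : Fin e), (p x i).coeff (k + 1) = x (i, k) := by
    intro x i k
    simp [p, Polynomial.finsetSum_coeff, coeff_monomial, coeff_C, Fin.val_inj]
  have hS0 : ∀ x, (∑ i, p x i ^ d).coeff 0 = ∑ i, c i ^ d := by
    intro x
    rw [Polynomial.finsetSum_coeff]
    refine Finset.sum_congr rfl fun i _ => ?_
    rw [← hc0 x i, coeff_zero_eq_eval_zero, coeff_zero_eq_eval_zero, eval_pow]
  obtain ⟨x, hx⟩ := Pool.Agent.H156Z.Null.surj_of_null (σ := Fin d × Fin e) (τ := Fin (d * e))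
    (by simp) w Φ (fun m => m + 1) (fun m => Nat.succ_pos _) (fun m => hS _)
    (by
      intro x hx
      have h1 : ∑ i, p x i ^ d = C (∑ i, c i ^ d) := by
        refine ext_of_coeff (hdegS x) (by rw [natDegree_C]; exact Nat.zero_le _) ?_ fun m => ?_
        · rw [hS0, coeff_C_zero]
        · rw [← hΦ, hx, coeff_C_succ]
      have h2 := hno (p x) _ (hc0 x) h1
      funext ⟨i, k⟩
      rw [← hck x i k, h2 i, coeff_C_succ]
      rfl)
    (fun m => F.coeff (m + 1))
  refine ⟨p x, hdeg x, ext_of_coeff hF (hdegS x) (by rw [hS0, hF0]) fun m => ?_⟩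
  rw [← hΦ, hx]

theorem univariate {d e : ℕ} (hd : 0 < d) (F : ℂ[X]) (hF : F.natDegree ≤ d * e) :
    ∃ p : Fin d → ℂ[X], (∀ i, (p i).natDegree ≤ e) ∧ F = ∑ i, p i ^ d := by
  by_cases h0 : F = 0
  · exact ⟨fun _ => 0, fun _ => by simp, by simp [h0, hd.ne']⟩
  obtain ⟨s, hs, H⟩ := with_const (e := e) hd
  obtain ⟨a, ha⟩ : ∃ a : ℂ, F.eval a ≠ 0 := by
    by_contra hc
    push Not at hc
    exact h0 (Polynomial.funext (by simpa using hc))
  obtain ⟨μ, hμ⟩ := IsAlgClosed.exists_pow_nat_eq (F.eval a / s) hd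
  obtain ⟨p, hp, hFp⟩ := H (C (s / F.eval a) * taylor a F)
    ((natDegree_C_mul_le _ _).trans (by rwa [natDegree_taylor]))
    (by rw [coeff_C_mul, taylor_coeff_zero, div_mul_cancel₀ _ ha])
  refine ⟨fun i => C μ * taylor (-a) (p i), fun i => ?_, ?_⟩
  · exact (natDegree_C_mul_le _ _).trans (by rw [natDegree_taylor]; exact hp i)
  · have h1 := congrArg (taylorAlgHom (-a)) hFp
    simp only [map_mul, map_sum, map_pow, taylorAlgHom_apply, taylor_C, taylor_taylor,
      neg_add_cancel, taylor_zero] at h1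
    simp only [mul_pow]
    rw [← Finset.mul_sum, ← h1, ← C_pow, hμ, ← mul_assoc, ← C_mul]
    have : F.eval a / s * (s / F.eval a) = 1 := by field_simp
    rw [this, C_1, one_mul]

theorem main (d e : ℕ) (hd : 0 < d) (f : MvPolynomial (Fin 2) ℂ) (hf : f.IsHomogeneous (d * e)) :
    ∃ g : Fin d → MvPolynomial (Fin 2) ℂ,
      (∀ i, (g i).IsHomogeneous e) ∧ f = ∑ i, g i ^ d := by
  let F : ℂ[X] := MvPolynomial.aeval ![X, 1] f
  have hF : F.natDegree ≤ d * e := by
    have := MvPolynomial.aeval_natDegree_le (m := d * e) (n := 1) f hf.totalDegree_le ![X, 1]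
      (by intro i; fin_cases i <;> simp)
    simpa using this
  obtain ⟨p, hp, hFp⟩ := univariate hd F hF
  refine ⟨fun i => (p i).homogenize e, fun i => isHomogeneous_homogenize _, ?_⟩
  rw [← homogenize_eq_of_isHomogeneous hf (rfl : _ = F)]
  apply homogenize_eq_of_isHomogeneous
  · refine MvPolynomial.IsHomogeneous.sum _ _ _ fun i _ => ?_
    rw [mul_comm]
    exact (isHomogeneous_homogenize _).pow d
  · rw [hFp, map_sum]
    refine Finset.sum_congr rfl fun i _ => ?_
    rw [map_pow, aeval_homogenize_X_one _ (hp i)]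

end Pool.Agent.H156Z.Shapiro
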